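import Pool.Agent.W707.TV.Defs
import Pool.Agent.W440.VC.Rs

/-!
TVC-RS: Riemann sums for the half-integer integrand
-/

set_option autoImplicit false

namespace Pool.Agent.W688.TV

open Filter Finset Pool.Agent.W709.VC Pool.Agent.W440.VC Pool.Agent.W707.TV
open scoped Real Topology

/-- the angle -/
noncomputable def ph (M m : ℕ) : ℝ := 2 * π * (m + 1) / Rh M

lemma Rh_pos' (M : ℕ) : 0 < Rh M := by unfold Rh; positivity

theorem rs_key {h : ℝ} (hh : 0 < h) (M : ℕ) (b η : ℝ) (hη : h ≤ η) (d : ℕ) :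
    RH M d (-b + η * Complex.I) ≠ 0 ∧
      |Real.log ‖RH M d (-b + η * Complex.I)‖ -
      Rh M / (4 * π) * (Lf η (b + 2 * π * d / Rh M) - Lf η (b - 2 * π * d / Rh M))| ≤
        d * (2 * π / Rh M / (Real.cosh h - 1)) := by
  have hq := cosh_pos' hh
  have hR := Rh_pos' M
  have hc := ell_cont hh hη
  induction d with
  | zero => simp [RH]
  | succ d ih =>
    obtain ⟨ih1, ih2⟩ := ih
    obtain ⟨f1, f2⟩ := log_factor (b := b) (φ := ph M d) hh hη
    have hRH : RH M (d + 1) (-b + η * Complex.I) = RH M d (-b + η * Complex.I) *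
        (-2 * Complex.cos (-b + η * Complex.I) - 2 * (Real.cos (ph M d) : ℂ)) := by
      unfold RH ph
      rw [prod_range_succ]
    refine ⟨?_, ?_⟩
    · rw [hRH]
      exact mul_ne_zero ih1 (norm_pos_iff.1 f1)
    rw [hRH, norm_mul, Real.log_mul (norm_ne_zero_iff.2 ih1) f1.ne', f2]
    set w : ℝ := 2 * π / Rh M with hw
    have hw0 : 0 < w := by positivity
    have hph : ph M d = 2 * π * d / Rh M + w := by
      rw [ph, hw]; field_simp
    have h2 : 2 * π * ((d : ℝ) + 1) / Rh M = 2 * π * d / Rh M + w := by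
      rw [hw]; field_simp
    have c1 := cell hh hη (b + 2 * π * d / Rh M) w (b + ph M d) hw0
      (by rw [hph]; linarith) (by rw [hph]; linarith)
    have c2 := cell hh hη (b - 2 * π * (d + 1) / Rh M) w (b - ph M d) hw0
      (by rw [hph, h2]) (by rw [hph, h2]; linarith)
    have e1 : b + 2 * π * d / Rh M + w = b + 2 * π * ((d + 1 : ℕ) : ℝ) / Rh M := by
      rw [hw]; push_cast; field_simp; ring
    have e2 : b - 2 * π * ((d : ℝ) + 1) / Rh M + w = b - 2 * π * d / Rh M := by
      rw [hw]; field_simp; ring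
    have e3 : b - 2 * π * ((d : ℝ) + 1) / Rh M = b - 2 * π * ((d + 1 : ℕ) : ℝ) / Rh M := by
      push_cast; ring
    rw [e1] at c1
    rw [e2, e3] at c2
    have i1 : ∫ τ in (b + 2 * π * d / Rh M)..(b + 2 * π * ((d + 1 : ℕ) : ℝ) / Rh M), ell η τ =
        Lf η (b + 2 * π * ((d + 1 : ℕ) : ℝ) / Rh M) - Lf η (b + 2 * π * d / Rh M) := by
      unfold Lf
      rw [intervalIntegral.integral_interval_sub_left (hc.intervalIntegrable _ _)
        (hc.intervalIntegrable _ _)]
    have i2 : ∫ τ in (b - 2 * π * ((d + 1 : ℕ) : ℝ) / Rh M)..(b - 2 * π * d / Rh M), ell η τ =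
        Lf η (b - 2 * π * d / Rh M) - Lf η (b - 2 * π * ((d + 1 : ℕ) : ℝ) / Rh M) := by
      unfold Lf
      rw [intervalIntegral.integral_interval_sub_left (hc.intervalIntegrable _ _)
        (hc.intervalIntegrable _ _)]
    rw [i1] at c1
    rw [i2] at c2
    set A1 := Lf η (b + 2 * π * ((d + 1 : ℕ) : ℝ) / Rh M)
    set A0 := Lf η (b + 2 * π * d / Rh M)
    set B1 := Lf η (b - 2 * π * ((d + 1 : ℕ) : ℝ) / Rh M)
    set B0 := Lf η (b - 2 * π * d / Rh M)
    set lg := Real.log ‖RH M d (-b + η * Complex.I)‖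
    set K : ℝ := Real.cosh h - 1
    have hNw : Rh M / (4 * π) = 1 / (2 * w) := by
      rw [hw]; field_simp; norm_num
    rw [hNw] at ih2 ⊢
    have split : lg + (ell η (b + ph M d) + ell η (b - ph M d)) / 2 - 1 / (2 * w) * (A1 - B1) =
        (lg - 1 / (2 * w) * (A0 - B0)) + 1 / (2 * w) * (w * ell η (b + ph M d) - (A1 - A0)) +
          1 / (2 * w) * (w * ell η (b - ph M d) - (B0 - B1)) := by
      field_simp
      ring
    rw [split]
    have hw2 : (0:ℝ) < 1 / (2 * w) := by positivity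
    have t1 : |1 / (2 * w) * (w * ell η (b + ph M d) - (A1 - A0))| ≤ w / K / 2 := by
      rw [abs_mul, abs_of_pos hw2]
      calc 1 / (2 * w) * |w * ell η (b + ph M d) - (A1 - A0)| ≤ 1 / (2 * w) * (w * (w / K)) :=
            mul_le_mul_of_nonneg_left c1 hw2.le
        _ = w / K / 2 := by field_simp
    have t2 : |1 / (2 * w) * (w * ell η (b - ph M d) - (B0 - B1))| ≤ w / K / 2 := by
      rw [abs_mul, abs_of_pos hw2]
      calc 1 / (2 * w) * |w * ell η (b - ph M d) - (B0 - B1)| ≤ 1 / (2 * w) * (w * (w / K)) :=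
            mul_le_mul_of_nonneg_left c2 hw2.le
        _ = w / K / 2 := by field_simp
    refine (abs_add_three _ _ _).trans ?_
    push_cast
    have : ((d : ℝ) + 1) * (w / K) = d * (w / K) + w / K / 2 + w / K / 2 := by ring
    rw [this]
    gcongr

lemma norm_cos_half (b η : ℝ) :
    ‖2 * Complex.cos ((-b + η * Complex.I) / 2)‖ ^ 2 = 2 * Real.cosh η + 2 * Real.cos b := by
  have h1 : 2 * Complex.cos ((-b + η * Complex.I) / 2) =
      ((2 * Real.cos (b / 2) * Real.cosh (η / 2) : ℝ) : ℂ) +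
        ((2 * Real.sin (b / 2) * Real.sinh (η / 2) : ℝ) : ℂ) * Complex.I := by
    have e : (-(b : ℂ) + η * Complex.I) / 2 = -((b / 2 : ℝ) : ℂ) + ((η / 2 : ℝ) : ℂ) * Complex.I := by
      push_cast; ring
    rw [e, Complex.cos_add, Complex.cos_neg, Complex.sin_neg, Complex.cos_mul_I, Complex.sin_mul_I]
    push_cast
    ring
  rw [h1, ← Complex.normSq_eq_norm_sq, Complex.normSq_add_mul_I]
  have a1 : Real.cos b = 2 * Real.cos (b / 2) ^ 2 - 1 := by
    rw [← Real.cos_two_mul]; congr 1; ring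
  have a2 : Real.cosh η = Real.cosh (η / 2) ^ 2 + Real.sinh (η / 2) ^ 2 := by
    rw [← Real.cosh_two_mul]; congr 1; ring
  have a3 := Real.cosh_sq (η / 2)
  have a4 := Real.sin_sq_add_cos_sq (b / 2)
  have a5 : Real.sin (b / 2) ^ 2 = 1 - Real.cos (b / 2) ^ 2 := by linarith
  rw [a1, a2]
  have : (2 * Real.cos (b / 2) * Real.cosh (η / 2)) ^ 2 + (2 * Real.sin (b / 2) * Real.sinh (η / 2)) ^ 2
      = 4 * Real.cos (b / 2) ^ 2 * Real.cosh (η / 2) ^ 2 +
        4 * Real.sin (b / 2) ^ 2 * Real.sinh (η / 2) ^ 2 := by ring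
  rw [this, a5, a3]
  ring

theorem hrs : S_HRS := by
  intro h H hh
  have hq := cosh_pos' hh
  refine ⟨2 * π / (Real.cosh h - 1) + (|Real.log (2 * (Real.cosh h - 1))| +
    |Real.log (4 * Real.cosh H)|), ?_⟩
  intro M d hd b η hη hH
  have hR := Rh_pos' M
  obtain ⟨k1, k2⟩ := rs_key hh M b η hη d
  have hlow := ell_low (τ := b) hh hη
  have hup : 2 * Real.cosh η + 2 * Real.cos b ≤ 4 * Real.cosh H := by
    have h1 : Real.cosh η ≤ Real.cosh H := by
      rw [Real.cosh_le_cosh, abs_of_pos (hh.trans_le hη), abs_of_pos (hh.trans_le (hη.trans hH))]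
      exact hH
    have h2 := Real.cos_le_one b
    have h3 := Real.one_le_cosh H
    linarith
  have hpos : 0 < 2 * Real.cosh η + 2 * Real.cos b := by linarith
  have hsq := norm_cos_half b η
  have hcne : ‖2 * Complex.cos ((-b + η * Complex.I) / 2)‖ ≠ 0 := by
    intro h0; rw [h0] at hsq; norm_num at hsq; linarith
  have hlog : 2 * Real.log ‖2 * Complex.cos ((-b + η * Complex.I) / 2)‖ =
      Real.log (2 * Real.cosh η + 2 * Real.cos b) := by
    rw [← hsq, Real.log_pow]; norm_num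
  have l1 := Real.log_le_log (by linarith) hlow
  have l2 := Real.log_le_log hpos hup
  have hbd : |Real.log ‖2 * Complex.cos ((-b + η * Complex.I) / 2)‖| ≤
      |Real.log (2 * (Real.cosh h - 1))| + |Real.log (4 * Real.cosh H)| := by
    have a1 := neg_abs_le (Real.log (2 * (Real.cosh h - 1)))
    have a2 := le_abs_self (Real.log (4 * Real.cosh H))
    have a3 := abs_nonneg (Real.log (2 * (Real.cosh h - 1)))
    have a4 := abs_nonneg (Real.log (4 * Real.cosh H))
    rw [abs_le]
    constructor <;> linarith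
  rw [norm_mul, Real.log_mul (norm_ne_zero_iff.2 k1) hcne, add_sub_right_comm]
  refine (abs_add_le _ _).trans ?_
  apply add_le_add _ hbd
  refine k2.trans ?_
  have hdN : (d : ℝ) ≤ Rh M := by
    have : (d : ℝ) < M := Nat.cast_lt.2 hd
    unfold Rh; linarith
  have h3 : Rh M * (2 * π / Rh M / (Real.cosh h - 1)) = 2 * π / (Real.cosh h - 1) := by
    field_simp
  rw [← h3]
  apply mul_le_mul_of_nonneg_right hdN
  positivity

end Pool.Agent.W688.TV
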